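import Pool.Agent.W932.WD.Od
import Pool.Agent.W418.S.Par

/-! WILD-DER: derivations dual to parameters. -/

set_option autoImplicit false
set_option linter.unusedVariables false
set_option linter.unusedSectionVars false

universe u

open Polynomial

namespace Pool.Agent.W932.WD

open Pool.Agent.W558

section

variable {k E : Type u} [Field k] [Field E] [Algebra k E] {O A : Subalgebra k E}

/-- derivations of the chart preserve the local rings of the points -/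
theorem der_pres (h : IsPt A O) (D : Derivation k E E) (hD : ∀ a ∈ A, D a ∈ A) :
    ∀ z ∈ O, D z ∈ O := by
  intro z hz
  obtain ⟨a, ha, b, hb, hb0, hbi, rfl⟩ := h.frac z hz
  have h1 : D (a * b⁻¹) * b = D a - (a * b⁻¹) * D b := by
    have h2 : D a = D (a * b⁻¹ * b) := by rw [inv_mul_cancel_right₀ hb0]
    rw [h2, D.leibniz (a * b⁻¹) b]
    simp only [smul_eq_mul]
    ring
  have h3 : D (a * b⁻¹) = (D a - (a * b⁻¹) * D b) * b⁻¹ := by
    rw [← h1, mul_inv_cancel_right₀ hb0]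
  rw [h3]
  exact O.mul_mem (O.sub_mem (h.le (hD a ha)) (O.mul_mem hz (h.le (hD b hb)))) hbi

/-- a derivation which vanishes on the chart is zero -/
theorem der_zero (hA : Sf A) (D : Derivation k E E) (hD : ∀ a ∈ A, D a = 0) : D = 0 := by
  ext z
  obtain ⟨a, ha, b, hb, hb0, rfl⟩ := hA.fr z
  have h2 : D (a * b⁻¹ * b) = 0 := by
    rw [inv_mul_cancel_right₀ hb0]
    exact hD a ha
  rw [D.leibniz, hD b hb, smul_zero, zero_add, smul_eq_mul] at h2
  rw [Derivation.zero_apply]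
  exact (mul_eq_zero.mp h2).resolve_left hb0

/-- the tangent vector of a derivation at the generic point -/
def gTV (A : Subalgebra k E) (D : Derivation k E E) : TV (A.val) where
  D := (D : E →ₗ[k] E) ∘ₗ A.val.toLinearMap
  leib := by
    intro a b
    show D ((a : E) * b) = (a : E) * D b + (b : E) * D a
    rw [D.leibniz]
    rfl

/-- two derivations dual to `x, y` form a basis -/
theorem basis_of_dual [PerfectField k] (htr : Algebra.trdeg k E = 2) (hA : Sf A) (x y : E)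
    (D1 D2 : Derivation k E E) (h1x : D1 x = 1) (h1y : D1 y = 0) (h2x : D2 x = 0)
    (h2y : D2 y = 1) (D : Derivation k E E) : D = D x • D1 + D y • D2 := by
  obtain ⟨a, b, -, -, -, -, -, -, hT⟩ := Pool.Agent.W418.SR.main k E htr A hA E A.val
  have key : ∀ F : Derivation k E E, F a = 0 → F b = 0 → F = 0 := by
    intro F hFa hFb
    apply der_zero hA
    intro c hc
    exact hT (gTV A F) hFa hFb ⟨c, hc⟩
  set p := D1 a with hp
  set q := D1 b with hq
  set r := D2 a with hr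
  set s := D2 b with hs
  have hdet : p * s - q * r ≠ 0 := by
    intro h0
    have e1 : s • D1 + (-q) • D2 = 0 := by
      apply key
      · show s * D1 a + (-q) * D2 a = 0
        rw [← hp, ← hr]; linear_combination h0
      · show s * D1 b + (-q) * D2 b = 0
        rw [← hq, ← hs]; ring
    have e2 : r • D1 + (-p) • D2 = 0 := by
      apply key
      · show r * D1 a + (-p) * D2 a = 0
        rw [← hp, ← hr]; ring
      · show r * D1 b + (-p) * D2 b = 0
        rw [← hq, ← hs]; linear_combination -h0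
    have e3 : s * D1 x + (-q) * D2 x = 0 := congrArg (fun F : Derivation k E E => F x) e1
    have e4 : s * D1 y + (-q) * D2 y = 0 := congrArg (fun F : Derivation k E E => F y) e1
    have e5 : r * D1 x + (-p) * D2 x = 0 := congrArg (fun F : Derivation k E E => F x) e2
    have e6 : r * D1 y + (-p) * D2 y = 0 := congrArg (fun F : Derivation k E E => F y) e2
    rw [h1x, h2x] at e3 e5
    rw [h1y, h2y] at e4 e6
    have hp0 : p = 0 := by linear_combination -e6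
    have hq0 : q = 0 := by linear_combination -e4
    have e7 := key D1 (by rw [← hp]; exact hp0) (by rw [← hq]; exact hq0)
    rw [e7] at h1x
    exact zero_ne_one h1x
  set D' := D - (D x • D1 + D y • D2) with hD'
  have hx' : D' x = 0 := by
    show D x - (D x * D1 x + D y * D2 x) = 0
    rw [h1x, h2x]; ring
  have hy' : D' y = 0 := by
    show D y - (D x * D1 y + D y * D2 y) = 0
    rw [h1y, h2y]; ring
  have e := key ((p * s - q * r) • D' + (-(D' a * s - D' b * r)) • D1 +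
    (-(p * D' b - q * D' a)) • D2) (by
      show (p * s - q * r) * D' a + (-(D' a * s - D' b * r)) * D1 a +
        (-(p * D' b - q * D' a)) * D2 a = 0
      rw [← hp, ← hr]; ring) (by
      show (p * s - q * r) * D' b + (-(D' a * s - D' b * r)) * D1 b +
        (-(p * D' b - q * D' a)) * D2 b = 0
      rw [← hq, ← hs]; ring)
  have ex : (p * s - q * r) * D' x + (-(D' a * s - D' b * r)) * D1 x +
        (-(p * D' b - q * D' a)) * D2 x = 0 := congrArg (fun F : Derivation k E E => F x) e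
  have ey : (p * s - q * r) * D' y + (-(D' a * s - D' b * r)) * D1 y +
        (-(p * D' b - q * D' a)) * D2 y = 0 := congrArg (fun F : Derivation k E E => F y) e
  rw [hx', h1x, h2x] at ex
  rw [hy', h1y, h2y] at ey
  have c1 : -(D' a * s - D' b * r) = 0 := by linear_combination ex
  have c2 : -(p * D' b - q * D' a) = 0 := by linear_combination ey
  rw [c1, c2, zero_smul, zero_smul, add_zero, add_zero] at e
  have hz : D' = 0 := by
    ext z
    have ez : (p * s - q * r) * D' z = 0 := congrArg (fun F : Derivation k E E => F z) e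
    exact (mul_eq_zero.mp ez).resolve_left hdet
  rw [hD'] at hz
  exact sub_eq_zero.mp hz

/-- inverting the matrix of derivatives -/
theorem dual_of_det (x y : E) (F1 F2 : Derivation k E E) (h1 : ∀ a ∈ O, F1 a ∈ O)
    (h2 : ∀ a ∈ O, F2 a ∈ O) (hx : x ∈ O) (hy : y ∈ O) (hdet : F1 x * F2 y - F1 y * F2 x ≠ 0)
    (hdi : (F1 x * F2 y - F1 y * F2 x)⁻¹ ∈ O) :
    ∃ D1 D2 : Derivation k E E, (∀ a ∈ O, D1 a ∈ O) ∧ (∀ a ∈ O, D2 a ∈ O) ∧ D1 x = 1 ∧
      D1 y = 0 ∧ D2 x = 0 ∧ D2 y = 1 := by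
  set Δ := F1 x * F2 y - F1 y * F2 x with hΔ
  refine ⟨(Δ⁻¹ * F2 y) • F1 + (-(Δ⁻¹ * F1 y)) • F2, (-(Δ⁻¹ * F2 x)) • F1 + (Δ⁻¹ * F1 x) • F2,
    ?_, ?_, ?_, ?_, ?_, ?_⟩
  · intro a ha
    show (Δ⁻¹ * F2 y) * F1 a + (-(Δ⁻¹ * F1 y)) * F2 a ∈ O
    exact O.add_mem (O.mul_mem (O.mul_mem hdi (h2 y hy)) (h1 a ha))
      (O.mul_mem (O.neg_mem (O.mul_mem hdi (h1 y hy))) (h2 a ha))
  · intro a ha
    show (-(Δ⁻¹ * F2 x)) * F1 a + (Δ⁻¹ * F1 x) * F2 a ∈ O
    exact O.add_mem (O.mul_mem (O.neg_mem (O.mul_mem hdi (h2 x hx))) (h1 a ha))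
      (O.mul_mem (O.mul_mem hdi (h1 x hx)) (h2 a ha))
  · show (Δ⁻¹ * F2 y) * F1 x + (-(Δ⁻¹ * F1 y)) * F2 x = 1
    have : (Δ⁻¹ * F2 y) * F1 x + (-(Δ⁻¹ * F1 y)) * F2 x = Δ⁻¹ * Δ := by rw [hΔ]; ring
    rw [this, inv_mul_cancel₀ hdet]
  · show (Δ⁻¹ * F2 y) * F1 y + (-(Δ⁻¹ * F1 y)) * F2 y = 0
    ring
  · show (-(Δ⁻¹ * F2 x)) * F1 x + (Δ⁻¹ * F1 x) * F2 x = 0
    ring
  · show (-(Δ⁻¹ * F2 x)) * F1 y + (Δ⁻¹ * F1 x) * F2 y = 1
    have : (-(Δ⁻¹ * F2 x)) * F1 y + (Δ⁻¹ * F1 x) * F2 y = Δ⁻¹ * Δ := by rw [hΔ]; ring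
    rw [this, inv_mul_cancel₀ hdet]

/-- if `a - 1` is a nonunit then `a` is a unit -/
theorem unit_of_sub_one (hadd : ∀ x y, NU O x → NU O y → NU O (x + y)) {a : E} (ha : a ∈ O)
    (h : NU O (a - 1)) : ¬ NU O a := by
  intro h1
  have h2 := hadd _ _ h1 h.neg
  rw [neg_sub, add_sub_cancel] at h2
  exact not_NU_one h2

end

theorem der_dual (k E : Type u) [Field k] [Field E] [Algebra k E] [PerfectField k]
    (htr : Algebra.trdeg k E = 2) (O A : Subalgebra k E) (x y : E) (hA : Sf A) (hpt : IsPt A O)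
    (hP : Par O x y) : ∃ D1 D2 : Derivation k E E, (∀ a ∈ O, D1 a ∈ O) ∧ (∀ a ∈ O, D2 a ∈ O) ∧
      D1 x = 1 ∧ D1 y = 0 ∧ D2 x = 0 ∧ D2 y = 1 := by
  have hadd := hpt.loc
  obtain ⟨u, v, g, huA, hvA, hgA, hg0, hgi, hQ, hC, -⟩ :=
    Pool.Agent.W418.SP.main Pool.Agent.W418.SR.main k E htr A O hA hpt
  have hl := isLocalRing_of_loc hadd
  have hsm := hA.sm
  let κ := IsLocalRing.ResidueField O
  have hBO : adj A g⁻¹ ≤ O := adj_le hpt.le hgi
  let φ' : adj A g⁻¹ →ₐ[k] κ := (IsScalarTower.toAlgHom k O κ).comp (Subalgebra.inclusion hBO)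
  let j : A →ₐ[k] adj A g⁻¹ := Subalgebra.inclusion (le_adj A g⁻¹)
  let φ : A →ₐ[k] κ := φ'.comp j
  have hφ : ∀ a : A, φ a = IsLocalRing.residue O ⟨a, hpt.le a.2⟩ := fun a => rfl
  obtain ⟨T1, T2, t1u, t1v, t2u, t2v⟩ := hC (le_adj A _ huA) (le_adj A _ hvA) κ φ'
  have hφu : φ ⟨u, huA⟩ = 0 := by
    rw [hφ, residue_eq_zero_NU]
    exact hQ.pu
  have hφv : φ ⟨v, hvA⟩ = 0 := by
    rw [hφ, residue_eq_zero_NU]
    exact hQ.pv
  obtain ⟨d1, d2, hd⟩ := Pool.Agent.W418.SP.exists_ders φ (u := ⟨u, huA⟩) (v := ⟨v, hvA⟩)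
    (D1 := T1.restr j) (D2 := T2.restr j) hφu hφv t1u t2u t2v
  have hfr : IsFractionRing A E := hA.isFractionRing
  obtain ⟨E1, hE1⟩ := exists_der_frac (K := E) d1
  obtain ⟨E2, hE2⟩ := exists_der_frac (K := E) d2
  have hE1' : ∀ (a : E) (ha : a ∈ A), E1 a = (d1 ⟨a, ha⟩ : A) := fun a ha => hE1 ⟨a, ha⟩
  have hE2' : ∀ (a : E) (ha : a ∈ A), E2 a = (d2 ⟨a, ha⟩ : A) := fun a ha => hE2 ⟨a, ha⟩
  have hE1A : ∀ a ∈ A, E1 a ∈ A := fun a ha => by rw [hE1' a ha]; exact (d1 ⟨a, ha⟩).2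
  have hE2A : ∀ a ∈ A, E2 a ∈ A := fun a ha => by rw [hE2' a ha]; exact (d2 ⟨a, ha⟩).2
  have hE1O := der_pres hpt E1 hE1A
  have hE2O := der_pres hpt E2 hE2A
  have hΔ : E1 u * E2 v - E1 v * E2 u =
      ((d1 ⟨u, huA⟩ * d2 ⟨v, hvA⟩ - d1 ⟨v, hvA⟩ * d2 ⟨u, huA⟩ : A) : E) := by
    rw [hE1' u huA, hE1' v hvA, hE2' u huA, hE2' v hvA]
    push_cast
    rfl
  have hΔu : ¬ NU O (E1 u * E2 v - E1 v * E2 u) := by
    intro h
    apply hd
    rw [hφ, residue_eq_zero_NU]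
    rw [hΔ] at h
    exact h
  have huO := hpt.le huA
  have hvO := hpt.le hvA
  have hΔO : E1 u * E2 v - E1 v * E2 u ∈ O :=
    O.sub_mem (O.mul_mem (hE1O u huO) (hE2O v hvO)) (O.mul_mem (hE1O v hvO) (hE2O u huO))
  rw [not_NU_iff hΔO] at hΔu
  obtain ⟨F1, F2, hF1, hF2, f1u, f1v, f2u, f2v⟩ :=
    dual_of_det (O := O) u v E1 E2 hE1O hE2O huO hvO hΔu.1 hΔu.2
  -- change of parameters
  obtain ⟨α, hα, β, hβ, ex⟩ := hQ.gen x hP.pu
  obtain ⟨γ, hγ, δ, hδ, ey⟩ := hQ.gen y hP.pv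
  obtain ⟨a, ha, b, hb, eu⟩ := hP.gen u hQ.pu
  obtain ⟨c, hc, d, hd', ev⟩ := hP.gen v hQ.pv
  -- mod m : (a b; c d) (α β; γ δ) = 1
  have rel : ∀ r s : E, r ∈ O → s ∈ O → r * u = s * v → NU O r ∧ NU O s := by
    intro r s hr hs h
    obtain ⟨e, he, h1⟩ := hQ.reg r hr s hs (by linear_combination h)
    have h2 : r = v * e := by
      have h3 : r * u = (v * e) * u := by rw [h, h1]; ring
      exact mul_right_cancel₀ hQ.u0 h3
    exact ⟨by rw [h2]; exact hQ.pv.mul_right he, by rw [h1]; exact hQ.pu.mul_right he⟩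
  obtain ⟨n1, n2⟩ := rel (a * α + b * γ - 1) (-(a * β + b * δ))
    (O.sub_mem (O.add_mem (O.mul_mem ha hα) (O.mul_mem hb hγ)) O.one_mem)
    (O.neg_mem (O.add_mem (O.mul_mem ha hβ) (O.mul_mem hb hδ))) (by
      have : u = a * (α * u + β * v) + b * (γ * u + δ * v) := by rw [← ex, ← ey]; exact eu
      linear_combination -this)
  obtain ⟨n3, n4⟩ := rel (c * α + d * γ) (1 - (c * β + d * δ))
    (O.add_mem (O.mul_mem hc hα) (O.mul_mem hd' hγ))
    (O.sub_mem O.one_mem (O.add_mem (O.mul_mem hc hβ) (O.mul_mem hd' hδ))) (by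
      have : v = c * (α * u + β * v) + d * (γ * u + δ * v) := by rw [← ex, ← ey]; exact ev
      linear_combination -this)
  have hdet1 : ¬ NU O (α * δ - β * γ) := by
    intro h
    have h1 : (a * d - b * c) * (α * δ - β * γ) - 1 =
        (a * α + b * γ - 1) * (c * β + d * δ) + (-(1 - (c * β + d * δ))) +
          (-(a * β + b * δ)) * (c * α + d * γ) := by ring
    have h2 : NU O ((a * d - b * c) * (α * δ - β * γ) - 1) := by
      rw [h1]
      refine hadd _ _ (hadd _ _ (n1.mul_right ?_) n4.neg) (n2.mul_right ?_)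
      · exact O.add_mem (O.mul_mem hc hβ) (O.mul_mem hd' hδ)
      · exact O.add_mem (O.mul_mem hc hα) (O.mul_mem hd' hγ)
    have h3 : ¬ NU O ((a * d - b * c) * (α * δ - β * γ)) :=
      unit_of_sub_one hadd (O.mul_mem (O.sub_mem (O.mul_mem ha hd') (O.mul_mem hb hc))
        (O.sub_mem (O.mul_mem hα hδ) (O.mul_mem hβ hγ))) h2
    exact h3 (h.mul_left (O.sub_mem (O.mul_mem ha hd') (O.mul_mem hb hc)))
  -- derivatives of `x, y`
  have f1x : NU O (F1 x - α) := by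
    have : F1 x - α = F1 α * u + F1 β * v := by
      rw [ex, map_add, F1.leibniz, F1.leibniz, f1u, f1v]
      simp only [smul_eq_mul]
      ring
    rw [this]
    exact hadd _ _ (hQ.pu.mul_left (hF1 α hα)) (hQ.pv.mul_left (hF1 β hβ))
  have f2x : NU O (F2 x - β) := by
    have : F2 x - β = F2 α * u + F2 β * v := by
      rw [ex, map_add, F2.leibniz, F2.leibniz, f2u, f2v]
      simp only [smul_eq_mul]
      ring
    rw [this]
    exact hadd _ _ (hQ.pu.mul_left (hF2 α hα)) (hQ.pv.mul_left (hF2 β hβ))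
  have f1y : NU O (F1 y - γ) := by
    have : F1 y - γ = F1 γ * u + F1 δ * v := by
      rw [ey, map_add, F1.leibniz, F1.leibniz, f1u, f1v]
      simp only [smul_eq_mul]
      ring
    rw [this]
    exact hadd _ _ (hQ.pu.mul_left (hF1 γ hγ)) (hQ.pv.mul_left (hF1 δ hδ))
  have f2y : NU O (F2 y - δ) := by
    have : F2 y - δ = F2 γ * u + F2 δ * v := by
      rw [ey, map_add, F2.leibniz, F2.leibniz, f2u, f2v]
      simp only [smul_eq_mul]
      ring
    rw [this]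
    exact hadd _ _ (hQ.pu.mul_left (hF2 γ hγ)) (hQ.pv.mul_left (hF2 δ hδ))
  have hxO := hP.pu.mem
  have hyO := hP.pv.mem
  have hdetO : F1 x * F2 y - F1 y * F2 x ∈ O :=
    O.sub_mem (O.mul_mem (hF1 x hxO) (hF2 y hyO)) (O.mul_mem (hF1 y hyO) (hF2 x hxO))
  have hdet2 : ¬ NU O (F1 x * F2 y - F1 y * F2 x) := by
    intro h
    apply hdet1
    have h1 : α * δ - β * γ = (F1 x * F2 y - F1 y * F2 x) + (-((F1 x - α) * F2 y)) +
        (-(α * (F2 y - δ))) + ((F1 y - γ) * F2 x) + γ * (F2 x - β) := by ring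
    rw [h1]
    refine hadd _ _ (hadd _ _ (hadd _ _ (hadd _ _ h ?_) ?_) ?_) ?_
    · exact (f1x.mul_right (hF2 y hyO)).neg
    · exact (f2y.mul_left hα).neg
    · exact f1y.mul_right (hF2 x hxO)
    · exact f2x.mul_left hγ
  rw [not_NU_iff hdetO] at hdet2
  exact dual_of_det (O := O) x y F1 F2 hF1 hF2 hxO hyO hdet2.1 hdet2.2

theorem main : WD_der.{u} := by
  intro k E _ _ _ _ htr O x y hO hP
  obtain ⟨A, hA, hpt⟩ := hO
  obtain ⟨D1, D2, h1, h2, h1x, h1y, h2x, h2y⟩ := der_dual k E htr O A x y hA hpt hP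
  exact ⟨D1, D2, h1, h2, h1x, h1y, h2x, h2y,
    fun D => basis_of_dual htr hA x y D1 D2 h1x h1y h2x h2y D⟩

end Pool.Agent.W932.WD
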