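import Pool.Agent.W932.WD.Od

/-! WILD-OD, second part: existence of the invariants. -/

set_option autoImplicit false
set_option linter.unusedVariables false
set_option linter.unusedSectionVars false

universe u

open Polynomial

namespace Pool.Agent.W932.WD

open Pool.Agent.W558

section

variable {k E : Type u} [Field k] [Field E] [Algebra k E] {O : Subalgebra k E} {x y : E}

theorem ord_exists (hN : IsNoetherianRing O) (hadd : ∀ x y, NU O x → NU O y → NU O (x + y))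
    (hx : NU O x) (u v : E) (h : u ≠ 0 ∨ v ≠ 0) (hu : u ∈ O) (hv : v ∈ O) :
    ∃ (M : ℕ) (u1 v1 : E), u1 ∈ O ∧ v1 ∈ O ∧ u = x ^ M * u1 ∧ v = x ^ M * v1 ∧
      ¬ (∃ s ∈ O, ∃ t ∈ O, u1 = x * s ∧ v1 = x * t) := by
  classical
  let P : ℕ → Prop := fun M => ∃ u1 ∈ O, ∃ v1 ∈ O, u = x ^ M * u1 ∧ v = x ^ M * v1
  have hex : ∃ M, ¬ P M := by
    by_contra hcon
    push Not at hcon
    have key : ∀ w : E, w ∈ O → (∀ M : ℕ, ∃ w1 ∈ O, w = x ^ M * w1) → w = 0 := by
      intro w hw hM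
      let I : Ideal O := { carrier := {a | NU O a}, add_mem' := fun {a b} ha hb => hadd _ _ ha hb,
                           zero_mem' := NU.zero, smul_mem' := fun c a ha => NU.mul_left ha c.2 }
      have hk := krull hN hadd I (fun z hz => hz) ⟨w, hw⟩ (by
        intro l
        obtain ⟨w1, hw1, h1⟩ := hM l
        have h2 : (⟨w, hw⟩ : O) = (⟨x, hx.mem⟩ : O) ^ l * ⟨w1, hw1⟩ := Subtype.ext h1
        rw [h2]
        have hxI : (⟨x, hx.mem⟩ : O) ∈ I := hx
        exact Ideal.mul_mem_right _ _ (Ideal.pow_mem_pow hxI _))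
      exact congrArg Subtype.val hk
    rcases h with h | h
    · exact h (key u hu fun M => by
        obtain ⟨u1, hu1, v1, hv1, e1, e2⟩ := hcon M
        exact ⟨u1, hu1, e1⟩)
    · exact h (key v hv fun M => by
        obtain ⟨u1, hu1, v1, hv1, e1, e2⟩ := hcon M
        exact ⟨v1, hv1, e2⟩)
  have hM0 := Nat.find_spec hex
  have hpos : Nat.find hex ≠ 0 := by
    intro h0
    rw [h0] at hM0
    exact hM0 ⟨u, hu, v, hv, by rw [pow_zero, one_mul], by rw [pow_zero, one_mul]⟩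
  obtain ⟨M, hM⟩ := Nat.exists_eq_succ_of_ne_zero hpos
  have hPM : P M := by
    by_contra hcon
    exact Nat.find_min hex (by rw [hM]; exact Nat.lt_succ_self M) hcon
  obtain ⟨u1, hu1, v1, hv1, e1, e2⟩ := hPM
  refine ⟨M, u1, v1, hu1, hv1, e1, e2, ?_⟩
  rintro ⟨s, hs, t, ht, e3, e4⟩
  apply hM0
  rw [hM]
  exact ⟨s, hs, t, ht, by rw [e1, e3, pow_succ]; ring, by rw [e2, e4, pow_succ]; ring⟩

theorem mem_of_Ox (hN : IsNoetherianRing O) (hadd : ∀ x y, NU O x → NU O y → NU O (x + y))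
    (hx : x ∈ O) (hy : NU O y) (w : E) (hw : w ∈ O) (h : ∀ c, Ox O x y c w) :
    ∃ s ∈ O, w = x * s := by
  have hl : IsLocalRing O := isLocalRing_of_loc hadd
  let I : Ideal O := Ideal.span {(⟨y, hy.mem⟩ : O)}
  have hI : I ≠ ⊤ := by
    intro h1
    rw [Ideal.span_singleton_eq_top] at h1
    obtain ⟨b, hb⟩ := h1.exists_right_inv
    exact hy.2 b b.2 (congrArg Subtype.val hb)
  let J : Ideal O := Ideal.span {(⟨x, hx⟩ : O)}
  have hk := Ideal.iInf_pow_smul_eq_bot_of_isLocalRing (M := O ⧸ J) I hI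
  have h2 : (Submodule.Quotient.mk ⟨w, hw⟩ : O ⧸ J) ∈
      (⨅ i : ℕ, I ^ i • ⊤ : Submodule O (O ⧸ J)) := by
    rw [Submodule.mem_iInf]
    intro c
    obtain ⟨α, hα, β, hβ, e⟩ := h c
    have h3 : (Submodule.Quotient.mk ⟨w, hw⟩ : O ⧸ J) =
        ((⟨y, hy.mem⟩ : O) ^ c) • (Submodule.Quotient.mk ⟨β, hβ⟩ : O ⧸ J) := by
      rw [← Submodule.Quotient.mk_smul, Submodule.Quotient.eq]
      have h4 : (⟨w, hw⟩ : O) - (⟨y, hy.mem⟩ : O) ^ c • (⟨β, hβ⟩ : O) =
          ⟨α, hα⟩ * (⟨x, hx⟩ : O) := by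
        apply Subtype.ext
        show w - y ^ c * β = α * x
        rw [e]; ring
      rw [h4]
      exact Ideal.mul_mem_left _ _ (Ideal.mem_span_singleton_self _)
    rw [h3]
    exact Submodule.smul_mem_smul (Ideal.pow_mem_pow (Ideal.mem_span_singleton_self _) _)
      Submodule.mem_top
  rw [hk, Submodule.mem_bot, Submodule.Quotient.mk_eq_zero] at h2
  obtain ⟨s, hs⟩ := Ideal.mem_span_singleton'.mp h2
  refine ⟨s, s.2, ?_⟩
  have := congrArg Subtype.val hs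
  rw [mul_comm]
  exact this.symm

theorem ox_exists (hN : IsNoetherianRing O) (hadd : ∀ x y, NU O x → NU O y → NU O (x + y))
    (hx : x ∈ O) (hy : NU O y) (u v : E) (hu : u ∈ O) (hv : v ∈ O)
    (h : ¬ (∃ s ∈ O, ∃ t ∈ O, u = x * s ∧ v = x * t)) :
    ∃ c, Ox O x y c u ∧ Ox O x y c v ∧ ¬ (Ox O x y (c + 1) u ∧ Ox O x y (c + 1) v) := by
  classical
  have h0 : ∀ w ∈ O, Ox O x y 0 w := fun w hw =>
    ⟨0, O.zero_mem, w, hw, by rw [pow_zero, mul_one, zero_mul, zero_add]⟩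
  have hex : ∃ c, ¬ (Ox O x y c u ∧ Ox O x y c v) := by
    by_contra hcon
    push Not at hcon
    obtain ⟨s, hs, e1⟩ := mem_of_Ox hN hadd hx hy u hu fun c => (hcon c).1
    obtain ⟨t, ht, e2⟩ := mem_of_Ox hN hadd hx hy v hv fun c => (hcon c).2
    exact h ⟨s, hs, t, ht, e1, e2⟩
  have hM0 := Nat.find_spec hex
  have hpos : Nat.find hex ≠ 0 := by
    intro h1
    rw [h1] at hM0
    exact hM0 ⟨h0 u hu, h0 v hv⟩
  obtain ⟨c, hc⟩ := Nat.exists_eq_succ_of_ne_zero hpos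
  have hPc : Ox O x y c u ∧ Ox O x y c v := by
    by_contra hcon
    exact Nat.find_min hex (by rw [hc]; exact Nat.lt_succ_self c) hcon
  refine ⟨c, hPc.1, hPc.2, ?_⟩
  rw [hc] at hM0
  exact hM0

theorem Ox_comb {c : ℕ} {u v α β : E} (hα : α ∈ O) (hβ : β ∈ O) (hu : Ox O x y c u)
    (hv : Ox O x y c v) : Ox O x y c (α * u + β * v) := by
  obtain ⟨a1, ha1, b1, hb1, e1⟩ := hu
  obtain ⟨a2, ha2, b2, hb2, e2⟩ := hv
  refine ⟨α * a1 + β * a2, O.add_mem (O.mul_mem hα ha1) (O.mul_mem hβ ha2),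
    α * b1 + β * b2, O.add_mem (O.mul_mem hα hb1) (O.mul_mem hβ hb2), ?_⟩
  rw [e1, e2]; ring

end

/-- derivation of a fraction -/
theorem der_frac {k E : Type u} [Field k] [Field E] [Algebra k E] (D : Derivation k E E)
    (f z : E) (hz : z ≠ 0) (N : ℕ) : D f * z ^ N * z = z * D (f * z ^ N) - N * (f * z ^ N) * D z := by
  rw [D.leibniz, D.leibniz_pow]
  simp only [smul_eq_mul, nsmul_eq_mul]
  rcases Nat.eq_zero_or_pos N with h | h
  · subst h
    simp
    ring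
  · have h1 : z ^ N = z ^ (N - 1) * z := by
      rw [← pow_succ]; congr 1; omega
    rw [h1]
    ring

theorem dat (hder : WD_der.{u}) (hthb : WD_thb.{u}) : WD_dat.{u} := by
  intro k E _ _ _ _ htr O x y f hO hP hf
  obtain ⟨D1, D2, hD1, hD2, h1x, h1y, h2x, h2y, hD⟩ := hder k E htr O x y hO hP
  obtain ⟨hT1, hT2, -⟩ := hthb k E htr O x y D1 D2 hO hP hD1 hD2 h1x h1y h2x h2y hD
  have hN := Pt2.noeth hO
  have hadd := Pt2.loc hO
  have hx := hP.pu
  have hy := hP.pv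
  have hx0 := hP.u0
  have hy0 := hP.v0
  have hne : D1 f ≠ 0 ∨ D2 f ≠ 0 := by
    by_contra hcon
    push Not at hcon
    obtain ⟨D, hDf⟩ := hf
    apply hDf
    rw [hD D]
    show D x * D1 f + D y * D2 f = 0
    rw [hcon.1, hcon.2]; ring
  constructor
  · rintro ⟨N, hN'⟩
    set g := f * x ^ N with hg
    -- numerators
    have hF : x * D1 f * x ^ N ∈ O := by
      have h1 := der_frac D1 f x hx0 N
      rw [h1x, ← hg, mul_one] at h1
      have h2 : x * D1 f * x ^ N = x * D1 g - N * g := by rw [← h1]; ring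
      rw [h2]
      exact O.sub_mem (O.mul_mem hx.mem (hD1 g hN')) (O.mul_mem (O.natCast_mem N) hN')
    have hG : D2 f * x ^ N ∈ O := by
      have h1 := der_frac D2 f x hx0 N
      rw [h2x, ← hg, mul_zero, sub_zero] at h1
      have h2 : D2 f * x ^ N = D2 g := by
        have h3 : (D2 f * x ^ N) * x = D2 g * x := by rw [h1]; ring
        exact mul_right_cancel₀ hx0 h3
      rw [h2]
      exact hD2 g hN'
    have hxN : x ^ N ≠ 0 := pow_ne_zero N hx0
    obtain ⟨M, u1, v1, hu1, hv1, e1, e2, hnot⟩ := ord_exists hN hadd hx (x * D1 f * x ^ N)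
      (D2 f * x ^ N) (by
        rcases hne with h | h
        · exact Or.inl (mul_ne_zero (mul_ne_zero hx0 h) hxN)
        · exact Or.inr (mul_ne_zero h hxN)) hF hG
    obtain ⟨c, hc1, hc2, hc3⟩ := ox_exists hN hadd hx.mem hy u1 v1 hu1 hv1 hnot
    have hpow : ∀ w w1 : E, w * x ^ N = x ^ M * w1 → w * x ^ (-((M : ℤ) - N)) = w1 := by
      intro w w1 h
      have h1 : x ^ (-((M : ℤ) - N)) = x ^ N * (x ^ M)⁻¹ := by
        rw [neg_sub, zpow_sub₀ hx0, zpow_natCast, zpow_natCast, div_eq_mul_inv]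
      rw [h1, ← mul_assoc, h, mul_comm (x ^ M), mul_assoc, mul_inv_cancel₀ (pow_ne_zero M hx0),
        mul_one]
    have hFm := hpow _ _ e1
    have hGm := hpow _ _ e2
    refine ⟨(M : ℤ) - N, c, ?_, ?_⟩
    · intro θ hθ
      obtain ⟨α, hα, β, hβ, rfl⟩ := (hT1 θ).mp hθ
      have h1 : (α • (x • D1) + β • D2) f * x ^ (-((M : ℤ) - N)) = α * u1 + β * v1 := by
        show (α * (x * D1 f) + β * D2 f) * x ^ (-((M : ℤ) - N)) = _
        rw [← hFm, ← hGm]; ring
      rw [h1]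
      exact Ox_comb hα hβ hc1 hc2
    · by_cases hc : Ox O x y (c + 1) u1
      · have hv : ¬ Ox O x y (c + 1) v1 := fun h => hc3 ⟨hc, h⟩
        refine ⟨D2, (hT1 _).mpr ⟨0, O.zero_mem, 1, O.one_mem, by rw [zero_smul, zero_add, one_smul]⟩,
          ?_⟩
        rw [hGm]
        exact hv
      · refine ⟨x • D1, (hT1 _).mpr ⟨1, O.one_mem, 0, O.zero_mem,
          by rw [zero_smul, add_zero, one_smul]⟩, ?_⟩
        show ¬ Ox O x y (c + 1) (x * D1 f * x ^ (-((M : ℤ) - N)))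
        rw [hFm]
        exact hc
  · rintro ⟨N, hN'⟩
    set z := x * y with hz
    have hz0 : z ≠ 0 := mul_ne_zero hx0 hy0
    set g := f * z ^ N with hg
    have hD1z : D1 z = y := by
      rw [hz, D1.leibniz, h1x, h1y]
      show x * 0 + y * 1 = y
      ring
    have hD2z : D2 z = x := by
      rw [hz, D2.leibniz, h2x, h2y]
      show x * 1 + y * 0 = x
      ring
    have hF : x * D1 f * z ^ N ∈ O := by
      have h1 := der_frac D1 f z hz0 N
      rw [hD1z, ← hg] at h1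
      have h2 : (x * D1 f * z ^ N) * y = (x * D1 g - N * g) * y := by
        have h3 : (x * D1 f * z ^ N) * y = D1 f * z ^ N * z := by rw [hz]; ring
        rw [h3, h1, hz]; ring
      have h3 := mul_right_cancel₀ hy0 h2
      rw [h3]
      exact O.sub_mem (O.mul_mem hx.mem (hD1 g hN')) (O.mul_mem (O.natCast_mem N) hN')
    have hG : y * D2 f * z ^ N ∈ O := by
      have h1 := der_frac D2 f z hz0 N
      rw [hD2z, ← hg] at h1
      have h2 : (y * D2 f * z ^ N) * x = (y * D2 g - N * g) * x := by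
        have h3 : (y * D2 f * z ^ N) * x = D2 f * z ^ N * z := by rw [hz]; ring
        rw [h3, h1, hz]; ring
      have h3 := mul_right_cancel₀ hx0 h2
      rw [h3]
      exact O.sub_mem (O.mul_mem hy.mem (hD2 g hN')) (O.mul_mem (O.natCast_mem N) hN')
    have hzN : z ^ N ≠ 0 := pow_ne_zero N hz0
    obtain ⟨M, u1, v1, hu1, hv1, e1, e2, hnot1⟩ := ord_exists hN hadd hx (x * D1 f * z ^ N)
      (y * D2 f * z ^ N) (by
        rcases hne with h | h
        · exact Or.inl (mul_ne_zero (mul_ne_zero hx0 h) hzN)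
        · exact Or.inr (mul_ne_zero (mul_ne_zero hy0 h) hzN)) hF hG
    have huv1 : u1 ≠ 0 ∨ v1 ≠ 0 := by
      by_contra hcon
      push Not at hcon
      exact hnot1 ⟨0, O.zero_mem, 0, O.zero_mem, by rw [hcon.1, mul_zero], by rw [hcon.2, mul_zero]⟩
    obtain ⟨L, u2, v2, hu2, hv2, e3, e4, hnot2⟩ := ord_exists hN hadd hy u1 v1 huv1 hu1 hv1
    have hnot3 : ¬ (∃ s ∈ O, ∃ t ∈ O, u2 = x * s ∧ v2 = x * t) := by
      rintro ⟨s, hs, t, ht, e5, e6⟩
      exact hnot1 ⟨y ^ L * s, O.mul_mem (O.pow_mem hy.mem L) hs, y ^ L * t,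
        O.mul_mem (O.pow_mem hy.mem L) ht, by rw [e3, e5]; ring, by rw [e4, e6]; ring⟩
    obtain ⟨c, hc1, hc2, hc3⟩ := ox_exists hN hadd hx.mem hy u2 v2 hu2 hv2 hnot3
    obtain ⟨d, hd1, hd2, hd3⟩ := ox_exists hN hadd hy.mem hx u2 v2 hu2 hv2 hnot2
    have hpow : ∀ w w1 w2 : E, w * z ^ N = x ^ M * w1 → w1 = y ^ L * w2 →
        w * (x ^ (-((M : ℤ) - N)) * y ^ (-((L : ℤ) - N))) = w2 := by
      intro w w1 w2 h h'
      have h1 : x ^ (-((M : ℤ) - N)) = x ^ N * (x ^ M)⁻¹ := by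
        rw [neg_sub, zpow_sub₀ hx0, zpow_natCast, zpow_natCast, div_eq_mul_inv]
      have h2 : y ^ (-((L : ℤ) - N)) = y ^ N * (y ^ L)⁻¹ := by
        rw [neg_sub, zpow_sub₀ hy0, zpow_natCast, zpow_natCast, div_eq_mul_inv]
      have h3 := pow_ne_zero M hx0
      have h4 := pow_ne_zero L hy0
      have h5 : w * (x ^ N * y ^ N) = x ^ M * (y ^ L * w2) := by
        rw [← mul_pow, ← h', ← h]
      rw [h1, h2]
      have h6 : w * (x ^ N * (x ^ M)⁻¹ * (y ^ N * (y ^ L)⁻¹)) =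
          (w * (x ^ N * y ^ N)) * ((x ^ M)⁻¹ * (y ^ L)⁻¹) := by ring
      rw [h6, h5]
      field_simp
    have hFm := hpow _ _ _ e1 e3
    have hGm := hpow _ _ _ e2 e4
    have hform : ∀ α β : E, (α • (x • D1) + β • (y • D2)) f *
        (x ^ (-((M : ℤ) - N)) * y ^ (-((L : ℤ) - N))) = α * u2 + β * v2 := by
      intro α β
      show (α * (x * D1 f) + β * (y * D2 f)) * _ = _
      rw [← hFm, ← hGm]; ring
    have hone : ∀ (a b : E) (j : ℕ), ¬ (Ox O a b j u2 ∧ Ox O a b j v2) →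
        ∃ θ ∈ Th O (uo O x ∪ uo O y), ¬ Ox O a b j (θ f *
          (x ^ (-((M : ℤ) - N)) * y ^ (-((L : ℤ) - N)))) := by
      intro a b j h
      by_cases hc : Ox O a b j u2
      · have hv : ¬ Ox O a b j v2 := fun h' => h ⟨hc, h'⟩
        refine ⟨(0 : E) • (x • D1) + (1 : E) • (y • D2),
          (hT2 _).mpr ⟨0, O.zero_mem, 1, O.one_mem, rfl⟩, ?_⟩
        rw [hform, zero_mul, zero_add, one_mul]
        exact hv
      · refine ⟨(1 : E) • (x • D1) + (0 : E) • (y • D2),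
          (hT2 _).mpr ⟨1, O.one_mem, 0, O.zero_mem, rfl⟩, ?_⟩
        rw [hform, zero_mul, add_zero, one_mul]
        exact hc
    refine ⟨(M : ℤ) - N, (L : ℤ) - N, c, d, ?_, hone x y (c + 1) hc3, hone y x (d + 1) hd3⟩
    intro θ hθ
    obtain ⟨α, hα, β, hβ, rfl⟩ := (hT2 θ).mp hθ
    rw [hform]
    exact ⟨Ox_comb hα hβ hc1 hc2, Ox_comb hα hβ hd1 hd2⟩

end Pool.Agent.W932.WD
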