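import Pool.Agent.W558.WD.Stms

/-! WILD-OD: orders. -/

set_option autoImplicit false
set_option linter.unusedVariables false
set_option linter.unusedSectionVars false

universe u

open Polynomial

namespace Pool.Agent.W932.WD

open Pool.Agent.W558

section base

variable {k E : Type u} [Field k] [Field E] [Algebra k E] {O A : Subalgebra k E}

/-- local rings of points are Noetherian -/
theorem noeth_pt (hA : Sf A) (h : IsPt A O) : IsNoetherianRing O := by
  have hsm := hA.sm
  have hft : Algebra.FiniteType k A := inferInstance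
  have hN : IsNoetherianRing A := Algebra.FiniteType.isNoetherianRing k A
  let _ : Algebra A O := (Subalgebra.inclusion h.le).toRingHom.toAlgebra
  have hmap : ∀ a : A, ((algebraMap A O a : O) : E) = a := fun a => rfl
  have hprime : h.mx.IsPrime := h.isMaximal.isPrime
  have hloc : IsLocalization h.mx.primeCompl O := by
    refine ⟨?_, ?_, ?_⟩
    · rintro ⟨s, hs⟩
      have hs' : ¬ NU O (s : E) := hs
      rw [not_NU_iff (h.le s.2)] at hs'
      exact IsUnit.of_mul_eq_one ⟨(s : E)⁻¹, hs'.2⟩ (Subtype.ext (mul_inv_cancel₀ hs'.1))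
    · rintro ⟨z, hz⟩
      obtain ⟨a, ha, b, hb, hb0, hbi, rfl⟩ := h.frac z hz
      refine ⟨⟨⟨a, ha⟩, ⟨⟨b, hb⟩, ?_⟩⟩, ?_⟩
      · show ¬ NU O b
        exact not_NU_of_inv hb0 hbi
      · apply Subtype.ext
        show a * b⁻¹ * b = a
        rw [inv_mul_cancel_right₀ hb0]
    · intro a b hab
      refine ⟨1, ?_⟩
      have h1 : ((algebraMap A O a : O) : E) = ((algebraMap A O b : O) : E) := by rw [hab]
      rw [hmap, hmap] at h1
      rw [Subtype.ext h1]
  exact IsLocalization.isNoetherianRing h.mx.primeCompl O hN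

theorem Pt2.noeth (h : Pt2 O) : IsNoetherianRing O := by
  obtain ⟨A, hA, hP⟩ := h
  exact noeth_pt hA hP

theorem Pt2.loc (h : Pt2 O) : ∀ x y, NU O x → NU O y → NU O (x + y) := by
  obtain ⟨A, hA, hP⟩ := h
  exact hP.loc

theorem Pt2.fr (h : Pt2 O) : ∀ z : E, ∃ a ∈ O, ∃ b ∈ O, b ≠ 0 ∧ z = a * b⁻¹ := by
  obtain ⟨A, hA, hP⟩ := h
  intro z
  obtain ⟨a, ha, b, hb, h1⟩ := hA.fr z
  exact ⟨a, hP.le ha, b, hP.le hb, h1⟩

theorem NU_sum {O : Subalgebra k E} (hadd : ∀ x y, NU O x → NU O y → NU O (x + y)) {ι : Type*}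
    (s : Finset ι) (g : ι → E) (h : ∀ i ∈ s, NU O (g i)) : NU O (∑ i ∈ s, g i) := by
  classical
  induction s using Finset.induction_on with
  | empty => rw [Finset.sum_empty]; exact NU.zero
  | insert a s ha ih =>
    rw [Finset.sum_insert ha]
    exact hadd _ _ (h a (Finset.mem_insert_self _ _))
      (ih fun i hi => h i (Finset.mem_insert_of_mem hi))

/-- Krull: an element in all powers of the maximal ideal vanishes -/
theorem krull (hN : IsNoetherianRing O) (hadd : ∀ x y, NU O x → NU O y → NU O (x + y))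
    (I : Ideal O) (hI : ∀ z ∈ I, NU O (z : E)) (z : O) (hz : ∀ l : ℕ, z ∈ I ^ l) : z = 0 := by
  have hl : IsLocalRing O := isLocalRing_of_loc hadd
  have hI' : I ≠ ⊤ := by
    intro h
    have h1 : (1 : O) ∈ I := by rw [h]; trivial
    exact not_NU_one (hI 1 h1)
  have h1 := Ideal.iInf_pow_eq_bot_of_isLocalRing I hI'
  have h2 : z ∈ (⨅ i, I ^ i) := by
    rw [Ideal.mem_iInf]
    exact hz
  rw [h1] at h2
  exact h2

end base

section od

variable {k E : Type u} [Field k] [Field E] [Algebra k E] {O : Subalgebra k E} {x y : E}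

theorem Md_step (hx : x ∈ O) (hy : y ∈ O) {l : ℕ} {z : E} (c : ℕ → E) (hc : ∀ j, c j ∈ O)
    (hz : z = ∑ j ∈ Finset.range (l + 1 + 1), c j * x ^ (l + 1 - j) * y ^ j) :
    z = ∑ j ∈ Finset.range (l + 1),
      (if j < l then c j * x else c l * x + c (l + 1) * y) * x ^ (l - j) * y ^ j := by
  rw [hz, Finset.sum_range_succ, Finset.sum_range_succ, Finset.sum_range_succ]
  have h1 : ∀ j ∈ Finset.range l, c j * x ^ (l + 1 - j) * y ^ j =
      (if j < l then c j * x else c l * x + c (l + 1) * y) * x ^ (l - j) * y ^ j := by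
    intro j hj
    rw [Finset.mem_range] at hj
    rw [if_pos hj]
    have h2 : l + 1 - j = (l - j) + 1 := by omega
    rw [h2, pow_succ]
    ring
  rw [Finset.sum_congr rfl h1, if_neg (lt_irrefl l)]
  have h3 : l + 1 - l = 1 := by omega
  have h4 : l + 1 - (l + 1) = 0 := by omega
  have h5 : l - l = 0 := by omega
  rw [h3, h4, h5]
  ring

theorem Md_pred (hx : x ∈ O) (hy : y ∈ O) {l : ℕ} {z : E} (h : Md O x y (l + 1) z) :
    Md O x y l z := by
  obtain ⟨c, hc, hz⟩ := h
  refine ⟨fun j => if j < l then c j * x else c l * x + c (l + 1) * y, ?_,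
    Md_step hx hy c hc hz⟩
  intro j
  dsimp only
  split_ifs
  · exact O.mul_mem (hc _) hx
  · exact O.add_mem (O.mul_mem (hc _) hx) (O.mul_mem (hc _) hy)

theorem Md_mono (hx : x ∈ O) (hy : y ∈ O) {z : E} (l l' : ℕ) (h : Md O x y l z) (hl : l' ≤ l) :
    Md O x y l' z := by
  induction l, hl using Nat.le_induction with
  | base => exact h
  | succ l hl ih => exact ih (Md_pred hx hy h)

theorem Md_Ox (hx : x ∈ O) (hy : y ∈ O) {z : E} (l c : ℕ) (h : Md O x y l z) (hc : c ≤ l) :
    Ox O x y c z ∧ Ox O y x c z := by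
  obtain ⟨a, ha, hz⟩ := h
  constructor
  · refine ⟨∑ j ∈ Finset.range l, a j * x ^ (l - j - 1) * y ^ j, ?_, a l * y ^ (l - c), ?_, ?_⟩
    · exact O.sum_mem fun j _ => O.mul_mem (O.mul_mem (ha j) (O.pow_mem hx _)) (O.pow_mem hy _)
    · exact O.mul_mem (ha l) (O.pow_mem hy _)
    · rw [hz, Finset.sum_range_succ, Finset.sum_mul, Nat.sub_self, pow_zero, mul_one]
      congr 1
      · refine Finset.sum_congr rfl fun j hj => ?_
        rw [Finset.mem_range] at hj
        have : x ^ (l - j) = x ^ (l - j - 1) * x := by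
          rw [← pow_succ]; congr 1; omega
        rw [this]; ring
      · rw [mul_assoc, ← pow_add]
        congr 2
        omega
  · refine ⟨∑ j ∈ Finset.range l, a (j + 1) * x ^ (l - (j + 1)) * y ^ j, ?_,
      a 0 * x ^ (l - c), ?_, ?_⟩
    · exact O.sum_mem fun j _ => O.mul_mem (O.mul_mem (ha _) (O.pow_mem hx _)) (O.pow_mem hy _)
    · exact O.mul_mem (ha 0) (O.pow_mem hx _)
    · rw [hz, Finset.sum_range_succ', Finset.sum_mul, pow_zero, mul_one, Nat.sub_zero]
      congr 1
      · refine Finset.sum_congr rfl fun j _ => ?_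
        rw [pow_succ]; ring
      · rw [mul_assoc, ← pow_add]
        congr 2
        omega

theorem Od_add (hadd : ∀ x y, NU O x → NU O y → NU O (x + y)) (hx : NU O x) (hy : NU O y)
    {z w : E} {l : ℕ} (hz : Od O x y l z) (hw : Md O x y (l + 1) w) : Od O x y l (z + w) := by
  obtain ⟨c, hc, ⟨j0, hj0, hcj⟩, hz⟩ := hz
  obtain ⟨d, hd, hw⟩ := hw
  have hw' := Md_step hx.mem hy.mem d hd hw
  set e : ℕ → E := fun j => if j < l then d j * x else d l * x + d (l + 1) * y with he
  have heN : ∀ j, NU O (e j) := by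
    intro j
    rw [he]
    dsimp only
    split_ifs
    · exact hx.mul_left (hd j)
    · exact hadd _ _ (hx.mul_left (hd l)) (hy.mul_left (hd _))
  refine ⟨fun j => c j + e j, fun j => O.add_mem (hc j) (heN j).mem, ⟨j0, hj0, ?_⟩, ?_⟩
  · intro h
    apply hcj
    have h1 := hadd _ _ h (heN j0).neg
    rwa [add_neg_cancel_right] at h1
  · rw [hz, hw', ← Finset.sum_add_distrib]
    refine Finset.sum_congr rfl fun j _ => ?_
    ring

theorem Od_exists (hN : IsNoetherianRing O) (hadd : ∀ x y, NU O x → NU O y → NU O (x + y))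
    (hP : Par O x y) (z : E) (hz : z ∈ O) (hz0 : z ≠ 0) : ∃ l, Od O x y l z := by
  by_contra hcon
  push Not at hcon
  have hM : ∀ l, Md O x y l z := by
    intro l
    induction l with
    | zero => exact ⟨fun _ => z, fun _ => hz, by simp⟩
    | succ l ih =>
      obtain ⟨c, hc, hzc⟩ := ih
      have hnu : ∀ j, j ≤ l → NU O (c j) := by
        intro j hj
        by_contra h
        exact hcon l ⟨c, hc, ⟨j, hj, h⟩, hzc⟩
      have hex : ∀ j, ∃ α ∈ O, ∃ β ∈ O, j ≤ l → c j = α * x + β * y := by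
        intro j
        by_cases hj : j ≤ l
        · obtain ⟨α, hα, β, hβ, h⟩ := hP.gen _ (hnu j hj)
          exact ⟨α, hα, β, hβ, fun _ => h⟩
        · exact ⟨0, O.zero_mem, 0, O.zero_mem, fun h => absurd h hj⟩
      choose α hα β hβ hαβ using hex
      refine ⟨fun j => (if j ≤ l then α j else 0) + (if j = 0 then 0 else β (j - 1)), ?_, ?_⟩
      · intro j
        dsimp only
        refine O.add_mem ?_ ?_
        · split_ifs
          · exact hα j
          · exact O.zero_mem
        · split_ifs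
          · exact O.zero_mem
          · exact hβ _
      · have h1 : ∑ j ∈ Finset.range (l + 1 + 1), ((if j ≤ l then α j else 0) +
            (if j = 0 then 0 else β (j - 1))) * x ^ (l + 1 - j) * y ^ j =
            (∑ j ∈ Finset.range (l + 1 + 1), (if j ≤ l then α j else 0) * x ^ (l + 1 - j) *
              y ^ j) + ∑ j ∈ Finset.range (l + 1 + 1), (if j = 0 then 0 else β (j - 1)) *
                x ^ (l + 1 - j) * y ^ j := by
          rw [← Finset.sum_add_distrib]
          refine Finset.sum_congr rfl fun j _ => ?_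
          ring
        rw [h1, Finset.sum_range_succ, Finset.sum_range_succ' _ (l + 1)]
        have h2 : ¬ (l + 1 ≤ l) := by omega
        rw [if_neg h2, if_pos rfl, zero_mul, zero_mul, zero_mul, zero_mul, add_zero, add_zero,
          hzc, ← Finset.sum_add_distrib]
        refine Finset.sum_congr rfl fun j hj => ?_
        rw [Finset.mem_range] at hj
        have hj' : j ≤ l := by omega
        rw [if_pos hj', if_neg (Nat.succ_ne_zero j), Nat.add_sub_cancel, hαβ j hj']
        have h3 : l + 1 - j = (l - j) + 1 := by omega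
        have h4 : l + 1 - (j + 1) = l - j := by omega
        rw [h3, h4, pow_succ, pow_succ]
        ring
  -- Krull
  apply hz0
  let I : Ideal O := { carrier := {a | NU O a}, add_mem' := fun {a b} ha hb => hadd _ _ ha hb,
                       zero_mem' := NU.zero, smul_mem' := fun c a ha => NU.mul_left ha c.2 }
  have hk := krull hN hadd I (fun z hz => hz) ⟨z, hz⟩ (by
    intro l
    obtain ⟨c, hc, hzc⟩ := hM l
    have h1 : (⟨z, hz⟩ : O) = ∑ j ∈ Finset.range (l + 1), ⟨c j, hc j⟩ *
        (⟨x, hP.pu.mem⟩ : O) ^ (l - j) * (⟨y, hP.pv.mem⟩ : O) ^ j := by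
      apply Subtype.ext
      push_cast
      exact hzc
    rw [h1]
    refine Ideal.sum_mem _ fun j hj => ?_
    rw [Finset.mem_range] at hj
    have hxI : (⟨x, hP.pu.mem⟩ : O) ∈ I := hP.pu
    have hyI : (⟨y, hP.pv.mem⟩ : O) ∈ I := hP.pv
    have h2 : (⟨x, hP.pu.mem⟩ : O) ^ (l - j) * (⟨y, hP.pv.mem⟩ : O) ^ j ∈ I ^ l := by
      have h3 : I ^ l = I ^ (l - j) * I ^ j := by
        rw [← pow_add]; congr 1; omega
      rw [h3]
      exact Ideal.mul_mem_mul (Ideal.pow_mem_pow hxI _) (Ideal.pow_mem_pow hyI _)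
    rw [mul_assoc]
    exact Ideal.mul_mem_left _ _ h2)
  exact congrArg Subtype.val hk

end od

theorem od : WD_od.{u} := by
  intro k E _ _ _ _ _ O x y hO hP
  refine ⟨fun z hz hz0 => Od_exists (Pt2.noeth hO) (Pt2.loc hO) hP z hz hz0, ?_, ?_, ?_, ?_⟩
  · rintro z l ⟨c, hc, -, hz⟩
    exact ⟨c, hc, hz⟩
  · intro z l l' h hl
    exact Md_mono hP.pu.mem hP.pv.mem l l' h hl
  · intro z l c h hc
    exact Md_Ox hP.pu.mem hP.pv.mem l c h hc
  · intro z w l hz hw
    exact Od_add (Pt2.loc hO) hP.pu hP.pv hz hw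

end Pool.Agent.W932.WD
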