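import Pool.Agent.W932.WD.Od

/-! WILD-QP: polynomials on the exceptional divisor. -/

set_option autoImplicit false
set_option linter.unusedVariables false
set_option linter.unusedSectionVars false

universe u

open Polynomial

namespace Pool.Agent.W932.WD

open Pool.Agent.W558

section qp

variable {k E : Type u} [Field k] [Field E] [Algebra k E] {O O' : Subalgebra k E} {x y y' : E}

/-- the kernel of the reduction of `O[y/x]` -/
theorem qp_ker [IsLocalRing O] (hP : Par O x y) (P Q : (O)[X])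
    (h : evA O (y / x) P = x * evA O (y / x) Q) : P.map (IsLocalRing.residue O) = 0 := by
  let X0 : O := ⟨x, hP.pu.mem⟩
  let Y0 : O := ⟨y, hP.pv.mem⟩
  have h1 : evA O ((Y0 : E) / X0) (P - C X0 * Q) = 0 := by
    rw [map_sub, map_mul, evA_C]
    show evA O (y / x) P - x * evA O (y / x) Q = 0
    rw [h, sub_self]
  have h2 := mem_span_of_evA_eq_zero (A := O) (x := Y0) (y := X0) hP.u0 (by
    rintro b ⟨c, hc⟩
    have h3 : x * (c : E) = y * b := (congrArg Subtype.val hc).symm
    obtain ⟨d, hd, h4⟩ := hP.reg c c.2 b b.2 h3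
    exact ⟨⟨d, hd⟩, Subtype.ext h4⟩) _ h1
  obtain ⟨S, hS⟩ := Ideal.mem_span_singleton'.mp h2
  have h3 : P = C X0 * Q + S * (C X0 * X - C Y0) := by rw [hS]; ring
  have hx0 : IsLocalRing.residue O X0 = 0 := residue_eq_zero_NU.mpr hP.pu
  have hy0 : IsLocalRing.residue O Y0 = 0 := residue_eq_zero_NU.mpr hP.pv
  rw [h3]
  simp only [Polynomial.map_add, Polynomial.map_mul, Polynomial.map_sub, Polynomial.map_C, hx0,
    hy0, C_0, zero_mul, mul_zero, sub_self, add_zero]

theorem evA_sum (τ : E) (P : (O)[X]) :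
    evA O τ P = ∑ i ∈ Finset.range (P.natDegree + 1), (P.coeff i : E) * τ ^ i := by
  change Polynomial.aeval τ P = _
  rw [Polynomial.aeval_eq_sum_range]
  rfl

/-- polynomials with coefficients in the maximal ideal -/
theorem qp_div [IsLocalRing O] (hQ : Quad O x O') (hτ : y / x ∈ O') (P : (O)[X])
    (h : P.map (IsLocalRing.residue O) = 0) : ∃ z ∈ O', evA O (y / x) P = x * z := by
  refine ⟨∑ i ∈ Finset.range (P.natDegree + 1), ((P.coeff i : E) * x⁻¹) * (y / x) ^ i, ?_, ?_⟩
  · refine O'.sum_mem fun i _ => O'.mul_mem (hQ.div _ ?_) (O'.pow_mem hτ i)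
    have h1 := congrArg (fun f => Polynomial.coeff f i) h
    simp only [Polynomial.coeff_map, Polynomial.coeff_zero] at h1
    exact residue_eq_zero_NU.mp h1
  · rw [evA_sum, Finset.mul_sum]
    refine Finset.sum_congr rfl fun i _ => ?_
    have := hQ.e0
    field_simp

theorem BB_le (hP : Par O x y) : BB O x ≤ adj O (y / x) := by
  refine Algebra.adjoin_le ?_
  rintro z (hz | ⟨w, hw, rfl⟩)
  · exact le_adj O _ hz
  · obtain ⟨α, hα, β, hβ, rfl⟩ := hP.gen w hw
    have h1 : (α * x + β * y) * x⁻¹ = α + β * (y / x) := by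
      have := hP.u0
      field_simp
    rw [h1]
    exact (adj O (y / x)).add_mem (le_adj O _ hα)
      ((adj O (y / x)).mul_mem (le_adj O _ hβ) (self_mem_adj O _))

theorem qp_main (hadd : ∀ x y, NU O x → NU O y → NU O (x + y)) (hP : Par O x y)
    (hQ : Quad O x O') (hP' : Par O' x y') (l : ℕ) (P : ℕ → E) (hPO : ∀ j, P j ∈ O)
    (hj : ∃ j, j ≤ l ∧ ¬ NU O (P j)) :
    ¬ Ox O' x y' (l + 1) (∑ j ∈ Finset.range (l + 1), P j * (y / x) ^ j) := by
  have hl := isLocalRing_of_loc hadd
  have hx0 := hP.u0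
  have hτ : y / x ∈ O' := by
    rw [div_eq_mul_inv]
    exact hQ.div y hP.pv
  let κ := IsLocalRing.ResidueField O
  let res : O →+* κ := IsLocalRing.residue O
  have hsurj : Function.Surjective (Polynomial.mapRingHom res) :=
    Polynomial.map_surjective res IsLocalRing.residue_surjective
  have hev : ∀ Q : (O)[X], evA O (y / x) Q ∈ O' := by
    intro Q
    exact adj_le hQ.le hτ ⟨Q, rfl⟩
  have hxN : ∀ z ∈ O', NU O' (x * z) := fun z hz => hP'.pu.mul_right hz
  -- the prime ideal of the point on the exceptional divisor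
  let I : Ideal (O)[X] :=
    { carrier := {Q | NU O' (evA O (y / x) Q)}
      add_mem' := by
        intro a b ha hb
        show NU O' (evA O (y / x) (a + b))
        rw [map_add]
        exact hQ.loc _ _ ha hb
      zero_mem' := by
        show NU O' (evA O (y / x) 0)
        rw [map_zero]
        exact NU.zero
      smul_mem' := by
        intro c a ha
        show NU O' (evA O (y / x) (c * a))
        rw [map_mul]
        exact NU.mul_left ha (hev c) }
  have hI : ∀ Q, Q ∈ I ↔ NU O' (evA O (y / x) Q) := fun Q => Iff.rfl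
  let J : Ideal κ[X] := I.map (Polynomial.mapRingHom res)
  have hJ : ∀ Q : (O)[X], Q.map res ∈ J ↔ NU O' (evA O (y / x) Q) := by
    intro Q
    constructor
    · intro h
      obtain ⟨Q', hQ', h1⟩ := (Ideal.mem_map_iff_of_surjective _ hsurj).mp h
      have h2 : (Q - Q').map (IsLocalRing.residue O) = 0 := by
        rw [Polynomial.map_sub]
        have h3 : Q'.map res = Q.map res := h1
        show Q.map res - Q'.map res = 0
        rw [h3, sub_self]
      obtain ⟨z, hz, h3⟩ := qp_div hQ hτ _ h2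
      rw [map_sub] at h3
      have h4 : evA O (y / x) Q = evA O (y / x) Q' + x * z := by rw [← h3]; ring
      rw [h4]
      exact hQ.loc _ _ hQ' (hxN z hz)
    · intro h
      exact Ideal.mem_map_of_mem (Polynomial.mapRingHom res) ((hI Q).mpr h)
  have hJprime : J.IsPrime := by
    refine ⟨?_, ?_⟩
    · intro h
      have h1 : (1 : κ[X]) ∈ J := by rw [h]; trivial
      have h2 : ((1 : (O)[X]).map res) ∈ J := by rw [Polynomial.map_one]; exact h1
      rw [hJ, map_one] at h2
      exact not_NU_one h2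
    · intro f g hfg
      obtain ⟨F, rfl⟩ := hsurj f
      obtain ⟨G, rfl⟩ := hsurj g
      have h1 : ((F * G).map res) ∈ J := by rw [Polynomial.map_mul]; exact hfg
      rw [hJ, map_mul, NU_mul_iff (hev F) (hev G)] at h1
      rcases h1 with h1 | h1
      · left; exact (hJ F).mpr h1
      · right; exact (hJ G).mpr h1
  -- `y'` as a fraction
  have hfrac : ∀ z ∈ O', ∃ A B : (O)[X], evA O (y / x) B ≠ 0 ∧ (evA O (y / x) B)⁻¹ ∈ O' ∧
      z * evA O (y / x) B = evA O (y / x) A := by
    intro z hz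
    obtain ⟨a, ha, b, hb, hb0, hbi, h1⟩ := hQ.frac z hz
    obtain ⟨A, hA⟩ := BB_le hP ha
    obtain ⟨B, hB⟩ := BB_le hP hb
    have hA' : evA O (y / x) A = a := hA
    have hB' : evA O (y / x) B = b := hB
    refine ⟨A, B, by rw [hB']; exact hb0, by rw [hB']; exact hbi, ?_⟩
    rw [hA', hB', h1, inv_mul_cancel_right₀ hb0]
  obtain ⟨A, B, hB0, hBi, hAB⟩ := hfrac y' hP'.pv.mem
  have hy'x : ∀ z ∈ O', y' ≠ x * z := by
    intro z hz h
    obtain ⟨d, hd, h1⟩ := hP'.reg z hz 1 O'.one_mem (by rw [mul_one, h])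
    exact hP'.pu.2 d hd h1.symm
  have hAJ : A.map res ∈ J := by
    rw [hJ, ← hAB]
    exact hP'.pv.mul_right (hev B)
  have hA0 : A.map res ≠ 0 := by
    intro h
    obtain ⟨z, hz, h1⟩ := qp_div hQ hτ A h
    apply hy'x (z * (evA O (y / x) B)⁻¹) (O'.mul_mem hz hBi)
    have h2 : y' = evA O (y / x) A * (evA O (y / x) B)⁻¹ := by
      rw [← hAB, mul_inv_cancel_right₀ hB0]
    rw [h2, h1]; ring
  have hJ0 : J ≠ ⊥ := by
    intro h
    rw [h] at hAJ
    exact hA0 hAJ
  let g := Submodule.IsPrincipal.generator J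
  have hg : Prime g := Submodule.IsPrincipal.prime_generator_of_isPrime J hJ0
  have hgd : ∀ f : κ[X], f ∈ J ↔ g ∣ f := fun f => Submodule.IsPrincipal.mem_iff_generator_dvd J
  have hgdeg : 0 < g.natDegree := by
    by_contra hcon
    have h1 : g.natDegree = 0 := by omega
    have h2 := Polynomial.eq_C_of_natDegree_eq_zero h1
    have h3 : g.coeff 0 ≠ 0 := by
      intro h0
      rw [h0, C_0] at h2
      exact hg.ne_zero h2
    apply hg.not_isUnit
    rw [h2]
    exact Polynomial.isUnit_C.mpr (isUnit_iff_ne_zero.mpr h3)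
  obtain ⟨G, hG⟩ := hsurj g
  have hG' : G.map res = g := hG
  -- `y'` lies in the ideal generated by `x` and `G(τ)`
  obtain ⟨s, hs, t, ht, hst⟩ : ∃ s ∈ O', ∃ t ∈ O', y' = s * x + t * evA O (y / x) G := by
    obtain ⟨c, hc⟩ := (hgd _).mp hAJ
    obtain ⟨C', hC'⟩ := hsurj c
    have hC'' : C'.map res = c := hC'
    have h1 : (A - G * C').map (IsLocalRing.residue O) = 0 := by
      rw [Polynomial.map_sub, Polynomial.map_mul]
      show A.map res - G.map res * C'.map res = 0
      rw [hG', hC'', hc, sub_self]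
    obtain ⟨z, hz, h2⟩ := qp_div hQ hτ _ h1
    rw [map_sub, map_mul] at h2
    refine ⟨z * (evA O (y / x) B)⁻¹, O'.mul_mem hz hBi,
      evA O (y / x) C' * (evA O (y / x) B)⁻¹, O'.mul_mem (hev _) hBi, ?_⟩
    have h3 : y' = evA O (y / x) A * (evA O (y / x) B)⁻¹ := by
      rw [← hAB, mul_inv_cancel_right₀ hB0]
    have h4 : evA O (y / x) A = x * z + evA O (y / x) G * evA O (y / x) C' := by rw [← h2]; ring
    rw [h3, h4]; ring
  have hpow : ∀ n : ℕ, ∃ s' ∈ O', y' ^ n = s' * x + t ^ n * evA O (y / x) G ^ n := by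
    intro n
    induction n with
    | zero => exact ⟨0, O'.zero_mem, by simp⟩
    | succ n ih =>
      obtain ⟨s', hs', h1⟩ := ih
      refine ⟨s' * y' + t ^ n * evA O (y / x) G ^ n * s, ?_, ?_⟩
      · exact O'.add_mem (O'.mul_mem hs' hP'.pv.mem)
          (O'.mul_mem (O'.mul_mem (O'.pow_mem ht n) (O'.pow_mem (hev G) n)) hs)
      · rw [pow_succ, h1]
        have h2 : (s' * x + t ^ n * evA O (y / x) G ^ n) * y' =
            s' * y' * x + t ^ n * evA O (y / x) G ^ n * y' := by ring
        rw [h2]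
        conv_lhs => rw [hst]
        rw [pow_succ t, pow_succ (evA O (y / x) G)]
        have h3 : s' * (s * x + t * evA O (y / x) G) * x = s' * y' * x := by rw [← hst]
        rw [h3]
        ring
  rintro ⟨α, hα, β, hβ, hz⟩
  obtain ⟨s', hs', h1⟩ := hpow (l + 1)
  -- the polynomial
  let PP : (O)[X] := ∑ j ∈ Finset.range (l + 1), C (⟨P j, hPO j⟩ : O) * X ^ j
  have hPP : evA O (y / x) PP = ∑ j ∈ Finset.range (l + 1), P j * (y / x) ^ j := by
    show evA O (y / x) (∑ j ∈ Finset.range (l + 1), C (⟨P j, hPO j⟩ : O) * X ^ j) = _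
    rw [map_sum]
    refine Finset.sum_congr rfl fun j _ => ?_
    rw [map_mul, map_pow, evA_C, evA_X]
  have h2 : evA O (y / x) PP = (α + β * s') * x + (β * t ^ (l + 1)) * evA O (y / x) G ^ (l + 1) := by
    rw [hPP, hz, h1]; ring
  obtain ⟨A1, B1, hB10, hB1i, e1⟩ := hfrac (α + β * s') (O'.add_mem hα (O'.mul_mem hβ hs'))
  obtain ⟨A2, B2, hB20, hB2i, e2⟩ := hfrac (β * t ^ (l + 1)) (O'.mul_mem hβ (O'.pow_mem ht _))
  have h3 : evA O (y / x) (PP * (B1 * B2) - G ^ (l + 1) * (A2 * B1)) =
      x * evA O (y / x) (A1 * B2) := by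
    rw [map_sub, map_mul, map_mul, map_mul, map_mul, map_mul, map_pow, h2, ← e1, ← e2]
    ring
  have h4 := qp_ker hP _ _ h3
  rw [Polynomial.map_sub] at h4
  have h5 : PP.map res * (B1 * B2).map res = g ^ (l + 1) * (A2 * B1).map res := by
    have h6 := sub_eq_zero.mp h4
    rw [← hG', ← Polynomial.map_pow, ← Polynomial.map_mul, ← Polynomial.map_mul]
    exact h6
  have hBB : ¬ g ∣ (B1 * B2).map res := by
    rw [← hgd, hJ, map_mul]
    refine not_NU_mul (hev B1) (hev B2) (not_NU_of_inv hB10 hB1i) (not_NU_of_inv hB20 hB2i)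
  have h6 : g ^ (l + 1) ∣ PP.map res := by
    refine hg.pow_dvd_of_dvd_mul_right (l + 1) hBB ?_
    rw [h5]
    exact dvd_mul_right _ _
  have hdeg : (PP.map res).natDegree ≤ l := by
    refine (Polynomial.natDegree_map_le).trans ?_
    refine Polynomial.natDegree_sum_le_of_forall_le _ _ fun j hj => ?_
    refine (Polynomial.natDegree_C_mul_X_pow_le _ _).trans ?_
    rw [Finset.mem_range] at hj
    omega
  have h7 : PP.map res = 0 := by
    by_contra hne
    have h8 := Polynomial.natDegree_le_of_dvd h6 hne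
    rw [Polynomial.natDegree_pow] at h8
    have h9 : (l + 1) * 1 ≤ (l + 1) * g.natDegree := Nat.mul_le_mul_left _ hgdeg
    omega
  obtain ⟨j, hjl, hjN⟩ := hj
  apply hjN
  have h8 := congrArg (fun f => Polynomial.coeff f j) h7
  simp only [Polynomial.coeff_map, Polynomial.coeff_zero] at h8
  have h9 : PP.coeff j = ⟨P j, hPO j⟩ := by
    show (∑ j ∈ Finset.range (l + 1), C (⟨P j, hPO j⟩ : O) * X ^ j).coeff j = _
    rw [Polynomial.finsetSum_coeff, Finset.sum_eq_single j]
    · rw [Polynomial.coeff_C_mul, Polynomial.coeff_X_pow, if_pos rfl, mul_one]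
    · intro i _ hi
      rw [Polynomial.coeff_C_mul, Polynomial.coeff_X_pow, if_neg (Ne.symm hi), mul_zero]
    · intro h
      exact absurd (Finset.mem_range.mpr (by omega)) h
  rw [h9] at h8
  exact residue_eq_zero_NU.mp h8

end qp

theorem qp : WD_qp.{u} := by
  intro k E _ _ _ _ _ O O' x y y' hO _ hP hQ hP' l P hPO hj
  exact qp_main (Pt2.loc hO) hP hQ hP' l P hPO hj

end Pool.Agent.W932.WD
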